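import Pool.Agent.helper71.AA.S2

/-!
# Project AA (MP_ad8ced_nt), module F1: first moments

The statements of N2 and N3 are hypotheses.
-/

namespace Pool.Agent.helper71.AA

open Finset

theorem F1_expand (Q : Finset ℕ) (R : ℝ) (v : ℕ → ℝ) :
    Ex Q (Ff Q R 0 v) = ∑ l ∈ Q, v l * Ex Q (fun A => if l ∈ A then Sg Q R A ^ 2 else 0) := by
  have h : Ex Q (Ff Q R 0 v) =
      Ex Q (fun A => ∑ l ∈ Q, v l * (if l ∈ A then Sg Q R A ^ 2 else 0)) := by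
    apply Ex_congr
    intro A hA
    unfold Ff Vf
    rw [zero_add, mul_sum, ← sum_subset hA]
    · apply sum_congr rfl
      intro l hl
      rw [if_pos hl, mul_comm]
    · intro l _ hl
      rw [if_neg hl, mul_zero]
  rw [h, Ex_sum]
  apply sum_congr rfl
  intro l _
  rw [Ex_mul]

theorem F1_mem {w Z : ℕ} {Q : Finset ℕ} (hQ : Q ⊆ Qs w Z) {l : ℕ} (hl : l ∈ Q) :
    l.Prime ∧ w < l ∧ 2 ≤ l := by
  have h := hQ hl
  unfold Qs at h
  rw [mem_filter, mem_Ioc] at h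
  exact ⟨h.2, h.1.1, h.2.two_le⟩

theorem F1_pr_ge {Q : Finset ℕ} (hQ : ∀ l ∈ Q, 2 ≤ l) {K : Finset ℕ} (hK : K ⊆ Q) : 1 ≤ pr K := by
  unfold pr
  rw [← prod_const_one (s := K) (ι := ℕ) (M := ℝ)]
  apply prod_le_prod (fun _ _ => zero_le_one)
  intro l hl
  have := hQ l (hK hl)
  have h2 : (2 : ℝ) ≤ l := by exact_mod_cast this
  linarith

theorem F1_ph_pos {Q : Finset ℕ} (hQ : ∀ l ∈ Q, 2 ≤ l) {K : Finset ℕ} (hK : K ⊆ Q) : 0 < ph K := by
  unfold ph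
  apply prod_pos
  intro l hl
  have := hQ l (hK hl)
  have h2 : (2 : ℝ) ≤ l := by exact_mod_cast this
  linarith

theorem F1_Gs_nonneg {Q : Finset ℕ} (hQ : ∀ l ∈ Q, 2 ≤ l) (x : ℝ) : 0 ≤ Gs Q x := by
  unfold Gs Sub
  apply sum_nonneg
  intro K hK
  rw [mem_filter, mem_powerset] at hK
  exact (one_div_pos.2 (F1_ph_pos hQ hK.1)).le

theorem F1_Gs_half {Q : Finset ℕ} (hQ : ∀ l ∈ Q, 2 ≤ l) : Gs Q (1 / 2) = 0 := by
  unfold Gs Sub
  rw [sum_eq_zero]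
  intro K hK
  rw [mem_filter, mem_powerset] at hK
  have := F1_pr_ge hQ hK.1
  linarith [hK.2]

theorem F1_one {w : ℕ} {C : ℝ} (hGu : ∀ (Z : ℕ) (Q : Finset ℕ), Q ⊆ Qs w Z →
    ∀ x y : ℝ, 0 < y → y ≤ x → Gs Q x - Gs Q y ≤ (1 + 2 / w) * Aw w * Real.log (x / y) + C)
    {Z : ℕ} {Q : Finset ℕ} (hQ : Q ⊆ Qs w Z) {g : ℕ} (hg : g ∈ Q) {R : ℝ} (hR : 1 ≤ R) :
    Ex Q (fun A => if g ∈ A then Sg Q R A ^ 2 else 0) ≤
      1 / (g : ℝ) * ((1 + 2 / w) * Aw w * Real.log g + C) := by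
  have h2 : ∀ l ∈ Q, 2 ≤ l := fun l hl => (F1_mem hQ hl).2.2
  have hg2 : (2 : ℝ) ≤ g := by exact_mod_cast h2 g hg
  rw [Ex_Sg_one Q h2 g hg R]
  apply mul_le_mul_of_nonneg_left _ (by positivity)
  have h := hGu Z (Q.erase g) ((erase_subset _ _).trans hQ) R (R / g) (by positivity)
    (div_le_self (by linarith) (by linarith))
  have e : R / (R / g) = (g : ℝ) := by
    field_simp
  rwa [e] at h

theorem F1_two {w : ℕ} {C : ℝ} (hGu : ∀ (Z : ℕ) (Q : Finset ℕ), Q ⊆ Qs w Z →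
    ∀ x y : ℝ, 0 < y → y ≤ x → Gs Q x - Gs Q y ≤ (1 + 2 / w) * Aw w * Real.log (x / y) + C)
    {Z : ℕ} {Q : Finset ℕ} (hQ : Q ⊆ Qs w Z) {g : ℕ} (hg : g ∈ Q) {R : ℝ} (hR : 1 ≤ R) :
    Ex Q (fun A => if g ∈ A then Sg Q R A ^ 2 else 0) ≤
      1 / (g : ℝ) * ((1 + 2 / w) * Aw w * (Real.log R + Real.log 2) + C) := by
  have h2 : ∀ l ∈ Q, 2 ≤ l := fun l hl => (F1_mem hQ hl).2.2
  have h2' : ∀ l ∈ Q.erase g, 2 ≤ l := fun l hl => h2 l (mem_of_mem_erase hl)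
  have hg2 : (2 : ℝ) ≤ g := by exact_mod_cast h2 g hg
  rw [Ex_Sg_one Q h2 g hg R]
  apply mul_le_mul_of_nonneg_left _ (by positivity)
  have h := hGu Z (Q.erase g) ((erase_subset _ _).trans hQ) R (1 / 2) (by positivity) (by linarith)
  have e : R / (1 / 2) = R * 2 := by ring
  rw [F1_Gs_half h2', e, Real.log_mul (by positivity) (by norm_num)] at h
  have h3 := F1_Gs_nonneg h2' (R / g)
  linarith

theorem F1_sub {w Z : ℕ} {Q : Finset ℕ} (hQ : Q ⊆ Qs w Z) {y x : ℝ} (hy : 0 ≤ y) :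
    Q.filter (fun l : ℕ => y < (l : ℝ) ∧ (l : ℝ) ≤ x) ⊆ (Ioc ⌊y⌋₊ ⌊x⌋₊).filter Nat.Prime := by
  intro l hl
  rw [mem_filter] at hl
  rw [mem_filter, mem_Ioc]
  exact ⟨⟨(Nat.floor_lt hy).2 hl.2.1, Nat.le_floor hl.2.2⟩, (F1_mem hQ hl.1).1⟩

theorem F1_Aw_nonneg (w : ℕ) : 0 ≤ Aw w := by unfold Aw; positivity

theorem F1_Aw_pos (w : ℕ) : 0 < Aw w := by
  unfold Aw
  have := primorial_pos w
  have h2 := Nat.totient_pos.2 this
  positivity

theorem F1_QX_sub (w : ℕ) (X : ℝ) (p : ℕ) : (QX w X).erase p ⊆ Qs w ⌊X ^ (0.43 : ℝ)⌋₊ :=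
  erase_subset _ _

/-- sum over the primes in `(y, x]` of `(a log l + C) / l` -/
theorem F1_sum {w : ℕ} {C : ℝ} (hC : 0 < C) (hGu : ∀ (Z : ℕ) (Q : Finset ℕ), Q ⊆ Qs w Z →
    ∀ x y : ℝ, 0 < y → y ≤ x → Gs Q x - Gs Q y ≤ (1 + 2 / w) * Aw w * Real.log (x / y) + C)
    {C₁ : ℝ} (hml : ∀ x y : ℝ, 1 ≤ y → y ≤ x →
      |∑ l ∈ (Ioc ⌊y⌋₊ ⌊x⌋₊).filter Nat.Prime, Real.log l / l - Real.log (x / y)| ≤ C₁)
    {C₂ : ℝ} (hmi : ∀ x y : ℝ, 2 ≤ y → y ≤ x →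
      ∑ l ∈ (Ioc ⌊y⌋₊ ⌊x⌋₊).filter Nat.Prime, 1 / (l : ℝ) ≤
        Real.log (Real.log x / Real.log y) + C₂ / Real.log y)
    {Z : ℕ} {Q : Finset ℕ} (hQ : Q ⊆ Qs w Z) {R : ℝ} (hR : 1 ≤ R) {x y : ℝ} (hy : 2 ≤ y)
    (hyx : y ≤ x) {v : ℕ → ℝ} (hv : ∀ l ∈ Q, v l ≤ if y < (l : ℝ) ∧ (l : ℝ) ≤ x then 1 else 0) :
    Ex Q (Ff Q R 0 v) ≤ (1 + 2 / w) * Aw w * (Real.log (x / y) + C₁) +
      C * (Real.log (Real.log x / Real.log y) + C₂ / Real.log y) := by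
  have h2 : ∀ l ∈ Q, 2 ≤ l := fun l hl => (F1_mem hQ hl).2.2
  have hA := F1_Aw_nonneg w
  have hE : ∀ g, 0 ≤ Ex Q (fun A => if g ∈ A then Sg Q R A ^ 2 else 0) := by
    intro g
    apply Ex_nonneg Q h2
    intro A _
    split_ifs <;> positivity
  rw [F1_expand]
  have s1 : ∑ l ∈ Q, v l * Ex Q (fun A => if l ∈ A then Sg Q R A ^ 2 else 0) ≤
      ∑ l ∈ Q.filter (fun l : ℕ => y < (l : ℝ) ∧ (l : ℝ) ≤ x),
        1 / (l : ℝ) * ((1 + 2 / w) * Aw w * Real.log l + C) := by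
    rw [sum_filter]
    apply sum_le_sum
    intro l hl
    have h3 := mul_le_mul_of_nonneg_right (hv l hl) (hE l)
    refine h3.trans ?_
    split_ifs with h4
    · rw [one_mul]
      exact F1_one hGu hQ hl hR
    · rw [zero_mul]
  have s2 : ∑ l ∈ Q.filter (fun l : ℕ => y < (l : ℝ) ∧ (l : ℝ) ≤ x),
        1 / (l : ℝ) * ((1 + 2 / w) * Aw w * Real.log l + C) ≤
      ∑ l ∈ (Ioc ⌊y⌋₊ ⌊x⌋₊).filter Nat.Prime,
        1 / (l : ℝ) * ((1 + 2 / w) * Aw w * Real.log l + C) := by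
    apply sum_le_sum_of_subset_of_nonneg (F1_sub hQ (by linarith))
    intro l _ _
    have : 0 ≤ Real.log (l : ℝ) := Real.log_natCast_nonneg l
    positivity
  have s3 : ∑ l ∈ (Ioc ⌊y⌋₊ ⌊x⌋₊).filter Nat.Prime,
        1 / (l : ℝ) * ((1 + 2 / w) * Aw w * Real.log l + C) =
      (1 + 2 / w) * Aw w * (∑ l ∈ (Ioc ⌊y⌋₊ ⌊x⌋₊).filter Nat.Prime, Real.log l / l) +
      C * ∑ l ∈ (Ioc ⌊y⌋₊ ⌊x⌋₊).filter Nat.Prime, 1 / (l : ℝ) := by
    rw [mul_sum, mul_sum, ← sum_add_distrib]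
    apply sum_congr rfl
    intro l _
    ring
  have s4 := (abs_le.1 (hml x y (by linarith) hyx)).2
  have s5 := hmi x y hy hyx
  refine s1.trans (s2.trans (s3.le.trans ?_))
  apply add_le_add
  · apply mul_le_mul_of_nonneg_left _ (by positivity)
    linarith
  · exact mul_le_mul_of_nonneg_left s5 hC.le

theorem F1_ev_rpow {α : ℝ} (hα : 0 < α) (B : ℝ) : ∀ᶠ X : ℝ in Filter.atTop, B ≤ X ^ α :=
  (tendsto_rpow_atTop hα).eventually_ge_atTop B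

theorem F1_ev_log (B : ℝ) : ∀ᶠ X : ℝ in Filter.atTop, B ≤ Real.log X :=
  Real.tendsto_log_atTop.eventually_ge_atTop B

theorem F1_ev_lin (c C D : ℝ) (hc : 0 < c) :
    ∀ᶠ t : ℝ in Filter.atTop, C * Real.log t + D ≤ c * t := by
  have h1 : ∀ᶠ t : ℝ in Filter.atTop, ‖Real.log t‖ ≤ (c / (2 * (|C| + 1))) * ‖(id t : ℝ)‖ :=
    Real.isLittleO_log_id_atTop.def (by positivity)
  filter_upwards [h1, Filter.eventually_ge_atTop (0 : ℝ),
    Filter.eventually_ge_atTop (2 * D / c)] with t h2 h3 h4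
  rw [id, Real.norm_eq_abs, Real.norm_eq_abs, abs_of_nonneg h3] at h2
  have h5 : C * Real.log t ≤ |C| * |Real.log t| := by
    rw [← abs_mul]; exact le_abs_self _
  have h6 : |C| * |Real.log t| ≤ c / 2 * t := by
    calc |C| * |Real.log t| ≤ (|C| + 1) * (c / (2 * (|C| + 1)) * t) := by
          apply mul_le_mul (by linarith) h2 (abs_nonneg _) (by positivity)
      _ = c / 2 * t := by
          have : (|C| + 1) ≠ 0 := by positivity
          field_simp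
  have h7 : D ≤ c / 2 * t := by
    rw [div_le_iff₀ hc] at h4
    linarith
  linarith

section main

variable (hGu : ∀ w : ℕ, 10 ≤ w → ∃ C : ℝ, 0 < C ∧ ∀ (Z : ℕ) (Q : Finset ℕ), Q ⊆ Qs w Z →
    ∀ x y : ℝ, 0 < y → y ≤ x → Gs Q x - Gs Q y ≤ (1 + 2 / w) * Aw w * Real.log (x / y) + C)
  (hGl : ∀ w : ℕ, 10 ≤ w → ∃ C : ℝ, 0 < C ∧ ∀ (Z p g : ℕ), w < p → w < g →
    ∀ x y : ℝ, 1 ≤ y → y ≤ x → x ≤ Z →
      (1 - 6 / w) * Aw w * Real.log (x / y) - C ≤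
        Gs (((Qs w Z).erase p).erase g) x - Gs (((Qs w Z).erase p).erase g) y)
  (hml : ∃ C : ℝ, 0 < C ∧ ∀ x y : ℝ, 1 ≤ y → y ≤ x →
    |∑ l ∈ (Ioc ⌊y⌋₊ ⌊x⌋₊).filter Nat.Prime, Real.log l / l - Real.log (x / y)| ≤ C)
  (hmi : ∃ C : ℝ, 0 < C ∧ ∀ x y : ℝ, 2 ≤ y → y ≤ x →
    ∑ l ∈ (Ioc ⌊y⌋₊ ⌊x⌋₊).filter Nat.Prime, 1 / (l : ℝ) ≤
      Real.log (Real.log x / Real.log y) + C / Real.log y)

include hGu hml hmi in
/-- `E[Sg² T]` for `T` supported on the primes `≤ y` -/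
theorem fm_small_of (w : ℕ) (hw : 10 ≤ w) (η : ℝ) (hη : 0 < η) (_hη1 : η ≤ 1 / 10) :
    ∃ X₀ : ℝ, ∀ X : ℝ, X₀ ≤ X → ∀ (R : ℝ) (p : ℕ), 1 ≤ R →
      Ex ((QX w X).erase p) (Ff ((QX w X).erase p) R 0
        (fun l => if (l : ℝ) ≤ X ^ η then 1 else 0)) ≤ 2 * η * Aw w * Real.log X := by
  obtain ⟨C, hC, hG⟩ := hGu w hw
  obtain ⟨C₁, _, hml⟩ := hml
  obtain ⟨C₂, _, hmi⟩ := hmi
  have hA := F1_Aw_pos w
  have hlog2 : 0 < Real.log 2 := Real.log_pos (by norm_num)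
  have hw' : (10 : ℝ) ≤ w := by exact_mod_cast hw
  have ht : Filter.Tendsto (fun X : ℝ => η * Real.log X / Real.log 2) Filter.atTop Filter.atTop :=
    (Filter.Tendsto.const_mul_atTop hη Real.tendsto_log_atTop).atTop_div_const hlog2
  have h1 := ht.eventually (F1_ev_lin (0.8 * Aw w * Real.log 2) C
    (1.2 * Aw w * C₁ + C * (C₂ / Real.log 2)) (by positivity))
  obtain ⟨X₀, hX₀⟩ := Filter.eventually_atTop.1
    (((h1.and (F1_ev_rpow hη 2)).and (F1_ev_log 1)).and (Filter.eventually_ge_atTop (1 : ℝ)))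
  refine ⟨X₀, fun X hX R p hR => ?_⟩
  obtain ⟨⟨⟨k1, k2⟩, k3⟩, k4⟩ := hX₀ X hX
  have hX0 : 0 < X := by linarith
  have hs := F1_sum hC hG hml hmi (F1_QX_sub w X p) hR (x := X ^ η) (y := 2) le_rfl k2
    (v := fun l => if (l : ℝ) ≤ X ^ η then 1 else 0) (by
      intro l hl
      have h5 := (F1_mem (F1_QX_sub w X p) hl).2.1
      have h6 : (2 : ℝ) < l := by
        have : 2 < l := by omega
        exact_mod_cast this
      simp only [h6, true_and]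
      exact le_rfl)
  refine hs.trans ?_
  have e1 : Real.log (X ^ η / 2) = η * Real.log X - Real.log 2 := by
    rw [Real.log_div (by positivity) (by norm_num), Real.log_rpow hX0]
  have e2 : Real.log (Real.log (X ^ η) / Real.log 2) = Real.log (η * Real.log X / Real.log 2) := by
    rw [Real.log_rpow hX0]
  rw [e1, e2]
  have h7 : (1 + 2 / (w : ℝ)) ≤ 1.2 := by
    have : 2 / (w : ℝ) ≤ 2 / 10 := div_le_div_of_nonneg_left (by norm_num) (by norm_num) hw'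
    linarith
  have hC1 : 0 ≤ C₁ := (abs_nonneg _).trans (hml 1 1 le_rfl le_rfl)
  have h8 : (1 + 2 / (w : ℝ)) * Aw w * (η * Real.log X - Real.log 2 + C₁) ≤
      1.2 * Aw w * (η * Real.log X + C₁) := by
    have h9 : 0 ≤ η * Real.log X + C₁ := by positivity
    calc (1 + 2 / (w : ℝ)) * Aw w * (η * Real.log X - Real.log 2 + C₁) ≤
        (1 + 2 / (w : ℝ)) * Aw w * (η * Real.log X + C₁) := by
          apply mul_le_mul_of_nonneg_left _ (by positivity)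
          linarith
      _ ≤ 1.2 * Aw w * (η * Real.log X + C₁) := by
          apply mul_le_mul_of_nonneg_right _ h9
          exact mul_le_mul_of_nonneg_right h7 hA.le
  have h10 : 0.8 * Aw w * Real.log 2 * (η * Real.log X / Real.log 2) =
      0.8 * Aw w * (η * Real.log X) := by
    field_simp
  rw [h10] at k1
  have : 1.2 * Aw w * (η * Real.log X) + 0.8 * Aw w * (η * Real.log X) =
      2 * η * Aw w * Real.log X := by ring
  linarith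

include hGl in
theorem fm_main_of (w : ℕ) (hw : 10 ≤ w) (c : ℝ) (hc : 0 ≤ c) : ∃ C X₀ : ℝ, ∀ X : ℝ, X₀ ≤ X →
    ∀ p : ℕ, w < p → c * ((1 - 6 / w) * Aw w * (0.166 * Real.log X)) - C ≤
      mw w X (X ^ (0.166 : ℝ)) c (fun _ => 0) p := by
  obtain ⟨C, hC, hG⟩ := hGl w hw
  obtain ⟨X₀, hX₀⟩ := Filter.eventually_atTop.1
    ((F1_ev_rpow (show (0 : ℝ) < 0.264 by norm_num) 2).and (Filter.eventually_ge_atTop (1 : ℝ)))
  refine ⟨c * C, X₀, fun X hX p hp => ?_⟩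
  obtain ⟨k1, k2⟩ := hX₀ X hX
  have hX0 : 0 < X := by linarith
  have hR1 : 1 ≤ X ^ (0.166 : ℝ) := Real.one_le_rpow k2 (by norm_num)
  have h1 : X ^ (0.166 : ℝ) ≤ (⌊X ^ (0.43 : ℝ)⌋₊ : ℝ) := by
    have h2 := Nat.lt_floor_add_one (X ^ (0.43 : ℝ))
    have h3 : X ^ (0.43 : ℝ) = X ^ (0.166 : ℝ) * X ^ (0.264 : ℝ) := by
      rw [← Real.rpow_add hX0]; norm_num
    have h4 : X ^ (0.166 : ℝ) * 2 ≤ X ^ (0.166 : ℝ) * X ^ (0.264 : ℝ) :=
      mul_le_mul_of_nonneg_left k1 (by linarith)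
    linarith
  have h2 : ∀ l ∈ (QX w X).erase p, 2 ≤ l := fun l hl => (F1_mem (F1_QX_sub w X p) hl).2.2
  have h3 := hG ⌊X ^ (0.43 : ℝ)⌋₊ p p hp hp (X ^ (0.166 : ℝ)) 1 le_rfl hR1 h1
  rw [erase_idem, div_one, Real.log_rpow hX0] at h3
  have h4 : mw w X (X ^ (0.166 : ℝ)) c (fun _ => 0) p =
      c * Gs ((QX w X).erase p) (X ^ (0.166 : ℝ)) := by
    unfold mw
    rw [← Ex_Sg_empty _ h2, ← Ex_mul]
    apply Ex_congr
    intro A _
    unfold Ff Vf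
    rw [sum_const_zero, add_zero, mul_comm]
  have h5 := F1_Gs_nonneg h2 1
  have h6 : (QX w X).erase p = (Qs w ⌊X ^ (0.43 : ℝ)⌋₊).erase p := rfl
  rw [h4, ← mul_sub]
  apply mul_le_mul_of_nonneg_left _ hc
  rw [h6] at h5 ⊢
  linarith

include hGu hml hmi in
theorem fm_zero_of (w : ℕ) (hw : 10 ≤ w) (δ : ℝ) (hδ : 0 < δ) (hδ1 : δ ≤ 1 / 10) :
    ∃ C X₀ : ℝ, ∀ X : ℝ, X₀ ≤ X → ∀ p : ℕ,
      mw w X (X ^ (ρe 0)) 0 (ve X δ 0) p ≤ (1 + 2 / w) * Aw w * (0.166 * Real.log X) + C := by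
  obtain ⟨C, hC, hG⟩ := hGu w hw
  obtain ⟨C₁, hC1, hml⟩ := hml
  obtain ⟨C₂, hC2, hmi⟩ := hmi
  have hA := F1_Aw_pos w
  obtain ⟨X₀, hX₀⟩ := Filter.eventually_atTop.1
    (((F1_ev_rpow hδ 2).and (F1_ev_log 1)).and (Filter.eventually_ge_atTop (1 : ℝ)))
  refine ⟨(1 + 2 / w) * Aw w * C₁ + C * (Real.log (0.166 / δ) + C₂ / δ), X₀, fun X hX p => ?_⟩
  obtain ⟨⟨k2, k3⟩, k4⟩ := hX₀ X hX
  have hX0 : 0 < X := by linarith
  have hr : ρe 0 = 0.166 := rfl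
  have hb : βe 0 = 0.166 := rfl
  have ha : αe δ 0 = δ := rfl
  have hR : 1 ≤ X ^ (ρe 0) := Real.one_le_rpow k4 (by rw [hr]; norm_num)
  have hyx : X ^ δ ≤ X ^ (0.166 : ℝ) := Real.rpow_le_rpow_of_exponent_le k4 (by norm_num; linarith)
  have hs := F1_sum hC hG hml hmi (F1_QX_sub w X p) hR (x := X ^ (0.166 : ℝ)) (y := X ^ δ) k2 hyx
    (v := ve X δ 0) (by
      intro l _
      unfold ve
      rw [ha, hb]
      simp only [if_true]
      exact le_rfl)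
  refine hs.trans ?_
  have e1 : Real.log (X ^ (0.166 : ℝ) / X ^ δ) = 0.166 * Real.log X - δ * Real.log X := by
    rw [Real.log_div (by positivity) (by positivity), Real.log_rpow hX0, Real.log_rpow hX0]
  have e2 : Real.log (Real.log (X ^ (0.166 : ℝ)) / Real.log (X ^ δ)) = Real.log (0.166 / δ) := by
    rw [Real.log_rpow hX0, Real.log_rpow hX0]
    congr 1
    have : Real.log X ≠ 0 := by linarith
    field_simp
  rw [e1, e2, Real.log_rpow hX0]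
  have h1 : (1 + 2 / (w : ℝ)) * Aw w * (0.166 * Real.log X - δ * Real.log X + C₁) ≤
      (1 + 2 / (w : ℝ)) * Aw w * (0.166 * Real.log X + C₁) := by
    apply mul_le_mul_of_nonneg_left _ (by positivity)
    have : 0 ≤ δ * Real.log X := by positivity
    linarith
  have h2 : C * (Real.log (0.166 / δ) + C₂ / (δ * Real.log X)) ≤
      C * (Real.log (0.166 / δ) + C₂ / δ) := by
    apply mul_le_mul_of_nonneg_left _ hC.le
    have : C₂ / (δ * Real.log X) ≤ C₂ / δ := by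
      apply div_le_div_of_nonneg_left hC2.le hδ
      have := mul_le_mul_of_nonneg_left k3 hδ.le
      linarith
    linarith
  have e3 : (1 + 2 / (w : ℝ)) * Aw w * (0.166 * Real.log X + C₁) =
      (1 + 2 / (w : ℝ)) * Aw w * (0.166 * Real.log X) + (1 + 2 / (w : ℝ)) * Aw w * C₁ := by ring
  linarith

theorem F1_exps (δ : ℝ) (i : Fin 4) (hi : i ≠ 0) :
    0.1 ≤ αe δ i ∧ αe δ i ≤ βe i ∧ βe i ≤ 0.43 ∧ 0 ≤ ρe i := by
  fin_cases i
  · exact absurd rfl hi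
  · refine ⟨?_, ?_, ?_, ?_⟩ <;> simp [αe, βe, ρe] <;> norm_num
  · refine ⟨?_, ?_, ?_, ?_⟩ <;> simp [αe, βe, ρe] <;> norm_num
  · refine ⟨?_, ?_, ?_, ?_⟩ <;> simp [αe, βe, ρe] <;> norm_num

include hGu hml hmi in
theorem fm_pos_of (w : ℕ) (hw : 10 ≤ w) (δ : ℝ) (i : Fin 4) (hi : i ≠ 0) :
    ∃ C X₀ : ℝ, ∀ X : ℝ, X₀ ≤ X → ∀ p : ℕ,
      mw w X (X ^ (ρe i)) 0 (ve X δ i) p ≤ (1 + 2 / w) * Aw w * (ρe i * Real.log X) *
        (Real.log (βe i / αe δ i) - (βe i - αe δ i) / 0.43) + C := by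
  obtain ⟨C, hC, hG⟩ := hGu w hw
  obtain ⟨C₁, hC1, hml⟩ := hml
  obtain ⟨C₂, hC2, hmi⟩ := hmi
  have hA := F1_Aw_pos w
  obtain ⟨ha, hab, hb, hr⟩ := F1_exps δ i hi
  have hve : ∀ (X : ℝ) (l : ℕ), ve X δ i l = if X ^ (αe δ i) < l ∧ (l : ℝ) ≤ X ^ (βe i) then
      1 - Real.log l / (0.43 * Real.log X) else 0 := by
    intro X l
    unfold ve
    rw [if_neg hi]
  generalize αe δ i = α at *
  generalize βe i = β at *
  generalize ρe i = ρ at *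
  have hα : 0 < α := by linarith
  have hlog2 : 0 < Real.log 2 := Real.log_pos (by norm_num)
  set a : ℝ := (1 + 2 / w) * Aw w with hadef
  have ha0 : 0 ≤ a := by positivity
  set Dd : ℝ := Real.log (β / α) - (β - α) / 0.43 with hDd
  set E : ℝ := C₂ / α + C₁ / 0.43 with hEdef
  have hE0 : 0 ≤ E := by positivity
  set c' : ℝ := a * Real.log 2 + C with hc'
  have hc'0 : 0 ≤ c' := by positivity
  obtain ⟨X₀, hX₀⟩ := Filter.eventually_atTop.1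
    (((F1_ev_rpow hα 2).and (F1_ev_log 1)).and (Filter.eventually_ge_atTop (1 : ℝ)))
  refine ⟨a * ρ * E + c' * |Dd| + c' * E, X₀, fun X hX p => ?_⟩
  obtain ⟨⟨k2, k3⟩, k4⟩ := hX₀ X hX
  have hX0 : 0 < X := by linarith
  have hL : 0 < Real.log X := by linarith
  have hR : 1 ≤ X ^ ρ := Real.one_le_rpow k4 hr
  have hyx : X ^ α ≤ X ^ β := Real.rpow_le_rpow_of_exponent_le k4 hab
  have hQ := F1_QX_sub w X p
  have h2 : ∀ l ∈ (QX w X).erase p, 2 ≤ l := fun l hl => (F1_mem hQ hl).2.2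
  have hE' : ∀ g, 0 ≤ Ex ((QX w X).erase p)
      (fun A => if g ∈ A then Sg ((QX w X).erase p) (X ^ ρ) A ^ 2 else 0) := by
    intro g
    apply Ex_nonneg _ h2
    intro A _
    split_ifs <;> positivity
  -- nonnegativity of the weights
  have hw0 : ∀ l : ℕ, 1 ≤ (l : ℝ) → (l : ℝ) ≤ X ^ β → 0 ≤ 1 - Real.log l / (0.43 * Real.log X) := by
    intro l hl1 hl2
    have h3 : Real.log l ≤ β * Real.log X := by
      rw [← Real.log_rpow hX0]
      exact Real.log_le_log (by linarith) hl2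
    have h4 : Real.log l / (0.43 * Real.log X) ≤ 1 := by
      rw [div_le_one (by positivity)]
      have := mul_le_mul_of_nonneg_right hb hL.le
      linarith
    linarith
  set M : ℝ := a * (Real.log (X ^ ρ) + Real.log 2) + C with hM
  have hM0 : 0 ≤ M := by
    have : 0 ≤ Real.log (X ^ ρ) := Real.log_nonneg hR
    positivity
  unfold mw
  rw [F1_expand]
  have s1 : ∑ l ∈ (QX w X).erase p, ve X δ i l *
        Ex ((QX w X).erase p) (fun A => if l ∈ A then Sg ((QX w X).erase p) (X ^ ρ) A ^ 2 else 0) ≤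
      ∑ l ∈ ((QX w X).erase p).filter (fun l : ℕ => X ^ α < (l : ℝ) ∧ (l : ℝ) ≤ X ^ β),
        M * (1 / (l : ℝ) * (1 - Real.log l / (0.43 * Real.log X))) := by
    rw [sum_filter]
    apply sum_le_sum
    intro l hl
    have hl2 : (2 : ℝ) ≤ l := by exact_mod_cast h2 l hl
    rw [hve]
    split_ifs with h4
    · have h5 := F1_two hG hQ hl hR
      have h6 := hw0 l (by linarith) h4.2
      have h7 := mul_le_mul_of_nonneg_left h5 h6
      refine h7.trans (le_of_eq ?_)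
      rw [hM]
      ring
    · rw [zero_mul]
  have s2 : ∑ l ∈ ((QX w X).erase p).filter (fun l : ℕ => X ^ α < (l : ℝ) ∧ (l : ℝ) ≤ X ^ β),
        M * (1 / (l : ℝ) * (1 - Real.log l / (0.43 * Real.log X))) ≤
      ∑ l ∈ (Ioc ⌊X ^ α⌋₊ ⌊X ^ β⌋₊).filter Nat.Prime,
        M * (1 / (l : ℝ) * (1 - Real.log l / (0.43 * Real.log X))) := by
    apply sum_le_sum_of_subset_of_nonneg (F1_sub hQ (by linarith))
    intro l hl _
    rw [mem_filter, mem_Ioc] at hl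
    have h8 : (l : ℝ) ≤ X ^ β := (Nat.le_floor_iff (by positivity)).1 hl.1.2
    have h9 : (1 : ℝ) ≤ l := by exact_mod_cast hl.2.one_le
    have := hw0 l h9 h8
    positivity
  have s3 : ∑ l ∈ (Ioc ⌊X ^ α⌋₊ ⌊X ^ β⌋₊).filter Nat.Prime,
        M * (1 / (l : ℝ) * (1 - Real.log l / (0.43 * Real.log X))) =
      M * ((∑ l ∈ (Ioc ⌊X ^ α⌋₊ ⌊X ^ β⌋₊).filter Nat.Prime, 1 / (l : ℝ)) -
      1 / (0.43 * Real.log X) *
        ∑ l ∈ (Ioc ⌊X ^ α⌋₊ ⌊X ^ β⌋₊).filter Nat.Prime, Real.log l / l) := by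
    rw [mul_sub, mul_sum, mul_sum, mul_sum, ← sum_sub_distrib]
    apply sum_congr rfl
    intro l _
    ring
  have s4 := (abs_le.1 (hml (X ^ β) (X ^ α) (by linarith) hyx)).1
  have s5 := hmi (X ^ β) (X ^ α) k2 hyx
  have e1 : Real.log (X ^ β / X ^ α) = (β - α) * Real.log X := by
    rw [Real.log_div (by positivity) (by positivity), Real.log_rpow hX0, Real.log_rpow hX0]
    ring
  have e2 : Real.log (Real.log (X ^ β) / Real.log (X ^ α)) = Real.log (β / α) := by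
    rw [Real.log_rpow hX0, Real.log_rpow hX0]
    congr 1
    field_simp
  rw [e1] at s4
  rw [e2, Real.log_rpow hX0] at s5
  have s6 : (∑ l ∈ (Ioc ⌊X ^ α⌋₊ ⌊X ^ β⌋₊).filter Nat.Prime, 1 / (l : ℝ)) -
      1 / (0.43 * Real.log X) *
        ∑ l ∈ (Ioc ⌊X ^ α⌋₊ ⌊X ^ β⌋₊).filter Nat.Prime, Real.log l / l ≤ Dd + E / Real.log X := by
    have h10 : 1 / (0.43 * Real.log X) * ((β - α) * Real.log X - C₁) ≤
        1 / (0.43 * Real.log X) *
        ∑ l ∈ (Ioc ⌊X ^ α⌋₊ ⌊X ^ β⌋₊).filter Nat.Prime, Real.log l / l := by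
      apply mul_le_mul_of_nonneg_left _ (by positivity)
      linarith
    have h11 : 1 / (0.43 * Real.log X) * ((β - α) * Real.log X - C₁) =
        (β - α) / 0.43 - C₁ / 0.43 / Real.log X := by
      field_simp
    have h12 : Dd + E / Real.log X = Real.log (β / α) + C₂ / (α * Real.log X) -
        ((β - α) / 0.43 - C₁ / 0.43 / Real.log X) := by
      rw [hDd, hEdef]
      field_simp
      ring
    rw [h12]
    linarith
  have s7 := mul_le_mul_of_nonneg_left s6 hM0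
  have e3 : M = a * ρ * Real.log X + c' := by
    rw [hM, hc', Real.log_rpow hX0]; ring
  have s8 : M * (Dd + E / Real.log X) ≤
      a * (ρ * Real.log X) * Dd + (a * ρ * E + c' * |Dd| + c' * E) := by
    rw [e3]
    have h13 : (a * ρ * Real.log X + c') * (Dd + E / Real.log X) =
        a * (ρ * Real.log X) * Dd + (a * ρ * E + c' * Dd + c' * (E / Real.log X)) := by
      field_simp
      ring
    rw [h13]
    have h14 : c' * Dd ≤ c' * |Dd| := mul_le_mul_of_nonneg_left (le_abs_self _) hc'0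
    have h15 : c' * (E / Real.log X) ≤ c' * E :=
      mul_le_mul_of_nonneg_left (div_le_self hE0 k3) hc'0
    linarith
  linarith

end main

end Pool.Agent.helper71.AA
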